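import Pool.Agent.Run7.h842.TW.B

/-! The twist graph of the 14-gon is connected. -/

namespace Run7.h842.TW

theorem exists_gen {N : ℕ} {T : Finset (ℕ × ℕ)} (hN : 2 ≤ N) (hT : IsTriangulation N T) (hc : Colorful N T) :
    ∃ L ∈ gen N 1 N, T = L.toFinset := by
  obtain ⟨L, hL, h⟩ := gen_complete hT hc N 1 N (by omega) le_rfl le_rfl (by omega)
    (Or.inr (Or.inr ⟨rfl, rfl⟩))
  refine ⟨L, hL, ?_⟩
  ext e
  rw [List.mem_toFinset, h]
  constructor
  · intro he
    have hd := hT.diag _ he
    refine ⟨he, hd.1, hd.2.2.1, fun h' => ?_⟩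
    exact hd.2.2.2 (by rw [h']; exact ⟨rfl, rfl⟩)
  · exact fun h' => h'.1

theorem entry (i : ℕ) (hi : i < (gen 14 1 14).length) : entryB (gen 14 1 14) i = true := by
  have := allB
  rw [List.all_eq_true] at this
  exact this i (by simpa using hi)

/-- the vertex number `i` -/
def vtx (i : ℕ) (hi : i < (gen 14 1 14).length) : Vert 14 :=
  ⟨((gen 14 1 14).getD i []).toFinset, vertB_spec (by
    have := entry i hi
    unfold entryB at this
    simp only [Bool.and_eq_true] at this
    exact this.1)⟩

theorem len_pos : 0 < (gen 14 1 14).length := by decide +kernel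

theorem reach : ∀ (n i : ℕ) (hi : i < (gen 14 1 14).length), rankT.getD i 0 ≤ n →
    (twistGraph 14).Reachable (vtx i hi) (vtx 0 len_pos) := by
  intro n
  induction n with
  | zero =>
    intro i hi hr
    by_cases h0 : i = 0
    · subst h0; exact SimpleGraph.Reachable.refl _
    · have := entry i hi
      unfold entryB at this
      simp only [Bool.and_eq_true, Bool.or_eq_true, decide_eq_true_eq, h0, false_or] at this
      obtain ⟨-, ⟨-, h⟩, -⟩ := this
      omega
  | succ n ih =>
    intro i hi hr
    by_cases h0 : i = 0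
    · subst h0; exact SimpleGraph.Reachable.refl _
    · have := entry i hi
      unfold entryB at this
      simp only [Bool.and_eq_true, Bool.or_eq_true, decide_eq_true_eq, h0, false_or] at this
      obtain ⟨-, ⟨hc, h⟩, hs⟩ := this
      have h1 := ih _ hc (by omega)
      refine SimpleGraph.Reachable.trans ?_ h1
      by_cases hne : vtx i hi = vtx _ hc
      · rw [hne]
      · refine SimpleGraph.Adj.reachable ?_
        rw [twistGraph, SimpleGraph.fromRel_adj]
        exact ⟨hne, Or.inl (stepB_spec hs)⟩

theorem connected14 : (twistGraph 14).Connected := by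
  have hall : ∀ v : Vert 14, (twistGraph 14).Reachable v (vtx 0 len_pos) := by
    rintro ⟨T, hT, hc⟩
    obtain ⟨L, hL, hTL⟩ := exists_gen (by norm_num) hT hc
    obtain ⟨i, hi, hLi⟩ := List.mem_iff_getElem.mp hL
    have : (⟨T, hT, hc⟩ : Vert 14) = vtx i hi := by
      apply Subtype.ext
      simp only [vtx]
      rw [hTL, List.getD_eq_getElem _ _ hi, hLi]
    rw [this]
    exact reach _ i hi le_rfl
  have : Nonempty (Vert 14) := ⟨vtx 0 len_pos⟩
  exact SimpleGraph.Connected.mk fun x y => (hall x).trans (hall y).symm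

end Run7.h842.TW
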