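import Mathlib

/-! Colourful triangulations of a convex polygon and the twist graph: definitions and enumeration. -/

namespace Run7.h842.TW

/-- `(a, b)` is a diagonal of the convex polygon with the vertices `1, …, N` (diagonals are written with
`a < b`) -/
def IsDiag (N : ℕ) (e : ℕ × ℕ) : Prop :=
  1 ≤ e.1 ∧ e.1 + 2 ≤ e.2 ∧ e.2 ≤ N ∧ ¬ (e.1 = 1 ∧ e.2 = N)

/-- two diagonals cross (in an interior point) -/
def Cross (e f : ℕ × ℕ) : Prop :=
  (e.1 < f.1 ∧ f.1 < e.2 ∧ e.2 < f.2) ∨ (f.1 < e.1 ∧ e.1 < f.2 ∧ f.2 < e.2)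

/-- a triangulation of the polygon: a maximal set of pairwise non-crossing diagonals -/
structure IsTriangulation (N : ℕ) (T : Finset (ℕ × ℕ)) : Prop where
  diag : ∀ e ∈ T, IsDiag N e
  noncrossing : ∀ e ∈ T, ∀ f ∈ T, ¬ Cross e f
  maximal : ∀ e, IsDiag N e → (∀ f ∈ T, ¬ Cross e f) → e ∈ T

/-- `a < b` are joined by a diagonal of `T` or by a side of the polygon -/
def Joined (N : ℕ) (T : Finset (ℕ × ℕ)) (a b : ℕ) : Prop :=
  (a, b) ∈ T ∨ (1 ≤ a ∧ b = a + 1 ∧ b ≤ N) ∨ (a = 1 ∧ b = N)

/-- every triangle of `T` has vertices of three different colours, the colour of `i` being `i` modulo `3` -/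
def Colorful (N : ℕ) (T : Finset (ℕ × ℕ)) : Prop :=
  ∀ a b c : ℕ, a < b → b < c → Joined N T a b → Joined N T b c → Joined N T a c →
    a % 3 ≠ b % 3 ∧ b % 3 ≠ c % 3 ∧ a % 3 ≠ c % 3

/-- a twist: in a hexagon `a < b < c < d < e < f` bounded by diagonals of `T` and sides of the polygon the
inner triangle `ace` is replaced by `bdf`, or `bdf` by `ace` -/
def Twist (N : ℕ) (T T' : Finset (ℕ × ℕ)) : Prop :=
  ∃ a b c d e f : ℕ, a < b ∧ b < c ∧ c < d ∧ d < e ∧ e < f ∧
    Joined N T a b ∧ Joined N T b c ∧ Joined N T c d ∧ Joined N T d e ∧ Joined N T e f ∧ Joined N T a f ∧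
    (((a, c) ∈ T ∧ (c, e) ∈ T ∧ (a, e) ∈ T ∧
        T' = (T \ {(a, c), (c, e), (a, e)}) ∪ {(b, d), (d, f), (b, f)}) ∨
      ((b, d) ∈ T ∧ (d, f) ∈ T ∧ (b, f) ∈ T ∧
        T' = (T \ {(b, d), (d, f), (b, f)}) ∪ {(a, c), (c, e), (a, e)}))

/-- the colourful triangulations -/
abbrev Vert (N : ℕ) : Type := {T : Finset (ℕ × ℕ) // IsTriangulation N T ∧ Colorful N T}

/-- the twist graph `𝓗_N` -/
def twistGraph (N : ℕ) : SimpleGraph (Vert N) := SimpleGraph.fromRel fun T T' => Twist N T.1 T'.1

theorem apex {N : ℕ} {T : Finset (ℕ × ℕ)} (hT : IsTriangulation N T) {i j : ℕ} (hi : 1 ≤ i) (hj : j ≤ N)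
    (hij : i + 2 ≤ j) (he : Joined N T i j) :
    ∃ k, i < k ∧ k < j ∧ Joined N T i k ∧ Joined N T k j := by
  classical
  have hex : ∃ k, k < j ∧ i < k ∧ Joined N T i k :=
    ⟨i + 1, by omega, by omega, Or.inr (Or.inl ⟨hi, rfl, by omega⟩)⟩
  obtain ⟨k, ⟨hkj, hik, hJ⟩, hmax⟩ : ∃ k, (k < j ∧ i < k ∧ Joined N T i k) ∧
      ∀ k', (k' < j ∧ i < k' ∧ Joined N T i k') → k' ≤ k := by
    have := Finset.exists_max_image ((Finset.range j).filter fun k => i < k ∧ Joined N T i k) id
      (by obtain ⟨k, h1, h2, h3⟩ := hex; exact ⟨k, by simp; exact ⟨h1, h2, h3⟩⟩)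
    obtain ⟨k, hk, hm⟩ := this
    simp only [Finset.mem_filter, Finset.mem_range] at hk hm
    exact ⟨k, ⟨hk.1, hk.2.1, hk.2.2⟩, fun k' h => hm k' ⟨h.1, h.2.1, h.2.2⟩⟩
  refine ⟨k, hik, hkj, hJ, ?_⟩
  by_cases hside : j = k + 1
  · exact Or.inr (Or.inl ⟨by omega, hside, hj⟩)
  · left
    by_contra hnot
    have hd : IsDiag N (k, j) := ⟨by omega, by simp only; omega, hj, by simp only; omega⟩
    have : ∃ f ∈ T, Cross (k, j) f := by
      by_contra hcon
      push Not at hcon
      exact hnot (hT.maximal _ hd hcon)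
    obtain ⟨⟨a, b⟩, hf, hc⟩ := this
    have hab := hT.diag _ hf
    unfold IsDiag at hab
    simp only at hab
    rcases hc with ⟨h1, h2, h3⟩ | ⟨h1, h2, h3⟩
    · simp only at h1 h2 h3
      rcases he with he | he | he
      · exact hT.noncrossing _ he _ hf (Or.inl ⟨by simp only; omega, h2, h3⟩)
      · omega
      · omega
    · simp only at h1 h2 h3
      rcases lt_trichotomy a i with ha | ha | ha
      · rcases he with he | he | he
        · exact hT.noncrossing _ he _ hf (Or.inr ⟨ha, by simp only; omega, h3⟩)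
        · omega
        · omega
      · subst ha
        have := hmax b ⟨h3, by omega, Or.inl hf⟩
        omega
      · rcases hJ with hJ | hJ | hJ
        · exact hT.noncrossing _ hJ _ hf (Or.inl ⟨ha, h1, h2⟩)
        · omega
        · omega

/-- all colourful triangulations of the polygon with the vertices `i, …, j` -/
def gen : ℕ → ℕ → ℕ → List (List (ℕ × ℕ))
  | 0, _, _ => []
  | fuel + 1, i, j =>
    if j ≤ i + 1 then [[]] else
      (List.range' (i + 1) (j - (i + 1))).flatMap fun k =>
        if i % 3 ≠ k % 3 ∧ k % 3 ≠ j % 3 ∧ i % 3 ≠ j % 3 then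
          (gen fuel i k).flatMap fun A => (gen fuel k j).map fun B =>
            (if i + 2 ≤ k then [(i, k)] else []) ++ (if k + 2 ≤ j then [(k, j)] else []) ++ A ++ B
        else []

theorem gen_complete {N : ℕ} {T : Finset (ℕ × ℕ)} (hT : IsTriangulation N T) (hc : Colorful N T) :
    ∀ (fuel i j : ℕ), j < fuel + i → 1 ≤ i → j ≤ N → i < j → Joined N T i j →
      ∃ L ∈ gen fuel i j, ∀ e : ℕ × ℕ, e ∈ L ↔ (e ∈ T ∧ i ≤ e.1 ∧ e.2 ≤ j ∧ e ≠ (i, j)) := by
  intro fuel
  induction fuel with
  | zero => intro i j h1 h2 h3 h4; omega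
  | succ fuel ih =>
    intro i j hf hi hj hij he
    unfold gen
    by_cases h : j ≤ i + 1
    · rw [if_pos h]
      refine ⟨[], by simp, fun e => ?_⟩
      constructor
      · intro h'; simp at h'
      · rintro ⟨h1, h2, h3, -⟩
        have := (hT.diag _ h1).2.1
        omega
    · rw [if_neg h]
      obtain ⟨k, hik, hkj, hJ1, hJ2⟩ := apex hT hi hj (by omega) he
      obtain ⟨A, hA, hA'⟩ := ih i k (by omega) hi (by omega) hik hJ1
      obtain ⟨B, hB, hB'⟩ := ih k j (by omega) (by omega) hj hkj hJ2
      have hcol := hc i k j hik hkj hJ1 hJ2 he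
      have e1 : i + 2 ≤ k → (i, k) ∈ T := by
        intro h'
        rcases hJ1 with h1 | h1 | h1
        · exact h1
        · omega
        · omega
      have e2 : k + 2 ≤ j → (k, j) ∈ T := by
        intro h'
        rcases hJ2 with h1 | h1 | h1
        · exact h1
        · omega
        · omega
      refine ⟨(if i + 2 ≤ k then [(i, k)] else []) ++ (if k + 2 ≤ j then [(k, j)] else []) ++ A ++ B, ?_, ?_⟩
      · rw [List.mem_flatMap]
        refine ⟨k, by rw [List.mem_range'_1]; omega, ?_⟩
        rw [if_pos hcol, List.mem_flatMap]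
        exact ⟨A, hA, List.mem_map.mpr ⟨B, hB, rfl⟩⟩
      · rintro ⟨a, b⟩
        simp only [List.mem_append, hA', hB']
        constructor
        · rintro (((h1 | h1) | h1) | h1)
          · split_ifs at h1 with h2
            · simp at h1
              obtain ⟨rfl, rfl⟩ := h1
              exact ⟨e1 h2, le_rfl, by omega, by simp; omega⟩
            · simp at h1
          · split_ifs at h1 with h2
            · simp at h1
              obtain ⟨rfl, rfl⟩ := h1
              exact ⟨e2 h2, by omega, le_rfl, by simp; omega⟩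
            · simp at h1
          · exact ⟨h1.1, h1.2.1, h1.2.2.1.trans (by omega), by
              intro h2; have h3 := (Prod.mk.inj h2).2; have := h1.2.2.1; omega⟩
          · exact ⟨h1.1, le_trans (by omega) h1.2.1, h1.2.2.1, by
              intro h2; have h3 := (Prod.mk.inj h2).1; have := h1.2.1; omega⟩
        · rintro ⟨h1, h2, h3, h4⟩
          have hd := hT.diag _ h1
          unfold IsDiag at hd
          simp only at hd
          by_cases hb : b ≤ k
          · by_cases h5 : a = i ∧ b = k
            · left; left; left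
              obtain ⟨rfl, rfl⟩ := h5
              rw [if_pos (by omega)]; simp
            · left; right
              exact ⟨h1, h2, hb, by simpa using h5⟩
          · by_cases ha : k ≤ a
            · by_cases h5 : a = k ∧ b = j
              · left; left; right
                obtain ⟨rfl, rfl⟩ := h5
                rw [if_pos (by omega)]; simp
              · right
                exact ⟨h1, ha, h3, by simpa using h5⟩
            · exfalso
              have ha' : a = i := by
                by_contra hne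
                exact hT.noncrossing _ (e1 (by omega)) _ h1 (Or.inl ⟨by simp only; omega, by simp only; omega,
                  by simp only; omega⟩)
              have hb' : b = j := by
                by_contra hne
                exact hT.noncrossing _ (e2 (by omega)) _ h1 (Or.inr ⟨by simp only; omega, by simp only; omega,
                  by simp only; omega⟩)
              exact h4 (by rw [ha', hb'])

end Run7.h842.TW
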