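import Pool.Agent.Run7.h842.TW.A

/-! The twist graph of the 14-gon is connected: the computation. -/

namespace Run7.h842.TW

/-- distances from the first triangulation -/
def rankT : List ℕ :=
  [0, 1, 4, 4, 1, 2, 3, 3, 2, 4, 5, 4, 5, 3, 4, 5, 5, 2, 5, 5, 4, 3, 1, 2, 5, 5, 2, 3, 3, 2, 3, 4, 4, 3, 4, 4,
   5, 4, 5, 4, 3, 3, 4, 5, 4, 5, 4, 4, 3, 4, 4, 3, 8, 9, 11, 10, 7, 10, 11, 9, 8, 9, 10, 12, 11, 8, 11, 12,
   10, 9, 3, 4, 4, 5, 6, 7, 5, 6, 2, 3, 5, 6, 6, 7, 4, 5, 3, 4, 6, 7, 4, 5, 5, 6, 5, 6, 6, 4, 5, 5, 6, 7, 8,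
   8, 7, 6, 7, 7, 6, 7, 6, 6, 3, 4, 4, 3, 6, 7, 7, 6, 7, 7, 6, 7, 8, 8, 7, 6, 5, 5, 4, 6, 6, 5, 6, 5, 5, 4, 7,
   6]

/-- a neighbour which is nearer to the first triangulation, and the hexagon -/
def certT : List (ℕ × ℕ × ℕ × ℕ × ℕ × ℕ × ℕ × ℕ) :=
  [(0, 0, 0, 0, 0, 0, 0, 0), (0, 9, 10, 11, 12, 13, 14, 0), (6, 6, 7, 8, 12, 13, 14, 1), (7, 6, 7, 11, 12, 13,
   14, 1), (0, 6, 7, 8, 9, 10, 14, 0), (1, 6, 7, 8, 9, 13, 14, 0), (5, 8, 9, 10, 11, 12, 13, 0), (8, 6, 7, 8,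
   9, 10, 11, 1), (4, 6, 10, 11, 12, 13, 14, 0), (27, 3, 4, 5, 9, 10, 14, 1), (34, 3, 4, 5, 9, 13, 14, 1),
   (28, 3, 4, 8, 9, 10, 14, 1), (39, 3, 4, 8, 9, 13, 14, 1), (17, 4, 5, 6, 7, 8, 12, 1), (13, 7, 8, 9, 10, 11,
   12, 0), (37, 3, 4, 5, 12, 13, 14, 1), (20, 4, 5, 9, 10, 11, 12, 1), (4, 4, 6, 8, 10, 12, 14, 0), (14, 4, 5,
   6, 7, 11, 12, 0), (44, 3, 4, 11, 12, 13, 14, 1), (21, 4, 5, 6, 7, 8, 9, 1), (17, 4, 8, 9, 10, 11, 12, 0),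
   (0, 3, 4, 5, 6, 7, 14, 0), (1, 3, 4, 5, 6, 7, 14, 0), (2, 3, 4, 5, 6, 7, 14, 0), (3, 3, 4, 5, 6, 7, 14, 0),
   (4, 3, 4, 5, 6, 10, 14, 0), (26, 5, 6, 7, 8, 9, 10, 0), (29, 3, 4, 5, 6, 7, 8, 1), (22, 3, 7, 8, 9, 10, 14,
   0), (5, 3, 4, 5, 6, 13, 14, 0), (6, 3, 4, 5, 6, 13, 14, 0), (7, 3, 4, 5, 6, 13, 14, 0), (8, 3, 4, 5, 6, 13,
   14, 0), (30, 5, 6, 7, 8, 9, 13, 0), (13, 3, 4, 5, 12, 13, 14, 0), (14, 3, 4, 5, 12, 13, 14, 0), (33, 5, 6,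
   10, 11, 12, 13, 0), (37, 5, 6, 7, 8, 9, 10, 0), (41, 3, 4, 5, 6, 7, 8, 1), (17, 3, 4, 8, 12, 13, 14, 0),
   (23, 3, 7, 8, 9, 13, 14, 0), (40, 3, 4, 5, 6, 7, 8, 0), (47, 3, 4, 5, 6, 7, 11, 1), (48, 3, 4, 5, 6, 10,
   11, 1), (49, 3, 4, 5, 9, 10, 11, 1), (21, 3, 4, 11, 12, 13, 14, 0), (51, 3, 7, 8, 9, 10, 11, 1), (26, 3,
   10, 11, 12, 13, 14, 0), (27, 3, 10, 11, 12, 13, 14, 0), (51, 3, 4, 5, 6, 7, 8, 1), (29, 3, 10, 11, 12, 13,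
   14, 0), (56, 6, 7, 8, 9, 10, 14, 1), (52, 9, 10, 11, 12, 13, 14, 0), (55, 7, 8, 9, 10, 11, 12, 1), (59, 6,
   7, 11, 12, 13, 14, 1), (116, 1, 6, 8, 10, 12, 14, 1), (53, 6, 7, 8, 9, 13, 14, 0), (57, 8, 9, 10, 11, 12,
   13, 0), (60, 6, 7, 8, 9, 10, 11, 1), (56, 6, 10, 11, 12, 13, 14, 0), (52, 1, 2, 3, 4, 5, 6, 0), (53, 1, 2,
   3, 4, 5, 6, 0), (54, 1, 2, 3, 4, 5, 6, 0), (55, 1, 2, 3, 4, 5, 6, 0), (56, 1, 2, 3, 4, 5, 6, 0), (57, 1, 2,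
   3, 4, 5, 6, 0), (58, 1, 2, 3, 4, 5, 6, 0), (59, 1, 2, 3, 4, 5, 6, 0), (60, 1, 2, 3, 4, 5, 6, 0), (78, 1, 2,
   3, 4, 5, 9, 1), (79, 1, 2, 3, 4, 5, 9, 1), (70, 4, 5, 6, 7, 8, 9, 0), (71, 4, 5, 6, 7, 8, 9, 0), (76, 2, 3,
   4, 5, 6, 7, 1), (77, 2, 3, 4, 5, 6, 7, 1), (84, 1, 2, 6, 7, 8, 9, 1), (85, 1, 2, 6, 7, 8, 9, 1), (22, 1, 3,
   5, 7, 9, 14, 0), (23, 1, 3, 5, 7, 9, 14, 0), (72, 1, 2, 3, 4, 8, 9, 0), (73, 1, 2, 3, 4, 8, 9, 0), (80, 3,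
   4, 5, 6, 7, 8, 0), (81, 3, 4, 5, 6, 7, 8, 0), (86, 1, 2, 3, 4, 5, 6, 1), (87, 1, 2, 3, 4, 5, 6, 1), (78, 1,
   5, 6, 7, 8, 9, 0), (79, 1, 5, 6, 7, 8, 9, 0), (92, 4, 5, 6, 7, 8, 12, 1), (111, 1, 2, 3, 4, 5, 12, 1),
   (112, 1, 2, 3, 4, 5, 12, 1), (113, 1, 2, 3, 4, 5, 12, 1), (114, 1, 2, 3, 4, 8, 12, 1), (94, 6, 7, 8, 9, 10,
   11, 1), (90, 4, 5, 6, 10, 11, 12, 0), (91, 4, 5, 9, 10, 11, 12, 0), (92, 4, 8, 9, 10, 11, 12, 0), (115, 1,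
   2, 3, 7, 8, 12, 1), (97, 7, 8, 9, 10, 11, 12, 0), (97, 2, 3, 4, 5, 6, 7, 0), (98, 2, 3, 4, 5, 6, 7, 0),
   (105, 2, 3, 4, 5, 6, 10, 1), (106, 2, 3, 4, 5, 9, 10, 1), (107, 2, 3, 4, 8, 9, 10, 1), (108, 2, 3, 7, 8, 9,
   10, 1), (128, 1, 2, 6, 10, 11, 12, 1), (131, 1, 2, 9, 10, 11, 12, 1), (132, 1, 2, 9, 10, 11, 12, 1), (133,
   1, 2, 9, 10, 11, 12, 1), (134, 1, 2, 9, 10, 11, 12, 1), (24, 1, 3, 5, 7, 12, 14, 0), (25, 1, 3, 5, 7, 12,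
   14, 0), (26, 1, 3, 5, 10, 12, 14, 0), (27, 1, 3, 5, 10, 12, 14, 0), (28, 1, 3, 8, 10, 12, 14, 0), (29, 1,
   3, 8, 10, 12, 14, 0), (99, 1, 2, 6, 7, 8, 12, 0), (116, 1, 2, 3, 4, 5, 6, 0), (93, 1, 2, 3, 4, 11, 12, 0),
   (94, 1, 2, 3, 4, 11, 12, 0), (95, 1, 2, 3, 4, 11, 12, 0), (96, 1, 2, 3, 4, 11, 12, 0), (98, 1, 2, 3, 7, 11,
   12, 0), (119, 3, 4, 5, 6, 10, 11, 0), (120, 3, 4, 5, 9, 10, 11, 0), (126, 3, 4, 5, 6, 7, 8, 1), (122, 3, 7,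
   8, 9, 10, 11, 0), (129, 1, 2, 3, 4, 5, 6, 1), (130, 1, 2, 3, 4, 5, 6, 1), (130, 6, 7, 8, 9, 10, 11, 1),
   (112, 1, 5, 6, 10, 11, 12, 0), (135, 1, 2, 3, 4, 5, 9, 1), (136, 1, 2, 3, 4, 8, 9, 1), (137, 1, 2, 3, 7, 8,
   9, 1), (133, 2, 3, 4, 5, 6, 7, 0), (113, 1, 5, 9, 10, 11, 12, 0), (114, 1, 8, 9, 10, 11, 12, 0), (115, 1,
   8, 9, 10, 11, 12, 0), (139, 1, 2, 3, 4, 5, 6, 1), (135, 1, 5, 6, 7, 8, 9, 0)]

def joinedB (N : ℕ) (L : List (ℕ × ℕ)) (a b : ℕ) : Bool :=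
  L.contains (a, b) || (decide (1 ≤ a) && decide (b = a + 1) && decide (b ≤ N)) || (decide (a = 1) && decide (b = N))

theorem joinedB_iff {N : ℕ} {L : List (ℕ × ℕ)} {a b : ℕ} :
    joinedB N L a b = true ↔ Joined N L.toFinset a b := by
  simp [joinedB, Joined, and_assoc, or_assoc]

/-- `M` arises from `L` by replacing `old` by `new` -/
def replB (L M old new : List (ℕ × ℕ)) : Bool :=
  old.all (fun x => L.contains x) && new.all (fun x => M.contains x) &&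
    M.all (fun x => new.contains x || (L.contains x && !old.contains x)) &&
    L.all (fun x => old.contains x || M.contains x)

theorem replB_spec {L M old new : List (ℕ × ℕ)} (h : replB L M old new = true) :
    (∀ x ∈ old, x ∈ L) ∧ M.toFinset = (L.toFinset \ old.toFinset) ∪ new.toFinset := by
  simp only [replB, Bool.and_eq_true, List.all_eq_true, List.contains_iff_mem, Bool.or_eq_true,
    Bool.not_eq_true', ← Bool.not_eq_true] at h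
  obtain ⟨⟨⟨h1, h2⟩, h3⟩, h4⟩ := h
  refine ⟨h1, ?_⟩
  ext x
  simp only [List.mem_toFinset, Finset.mem_union, Finset.mem_sdiff]
  constructor
  · intro hx
    rcases h3 x hx with h | h
    · exact Or.inr h
    · exact Or.inl h
  · rintro (⟨h5, h6⟩ | h5)
    · rcases h4 x h5 with h | h
      · exact absurd h h6
      · exact h
    · exact h2 x h5

def stepB (N : ℕ) (L M : List (ℕ × ℕ)) (a b c d e f s : ℕ) : Bool :=
  decide (a < b) && decide (b < c) && decide (c < d) && decide (d < e) && decide (e < f) &&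
  joinedB N L a b && joinedB N L b c && joinedB N L c d && joinedB N L d e && joinedB N L e f &&
  joinedB N L a f &&
  (if s = 0 then replB L M [(a, c), (c, e), (a, e)] [(b, d), (d, f), (b, f)]
    else replB L M [(b, d), (d, f), (b, f)] [(a, c), (c, e), (a, e)])

theorem stepB_spec {N : ℕ} {L M : List (ℕ × ℕ)} {a b c d e f s : ℕ}
    (h : stepB N L M a b c d e f s = true) : Twist N L.toFinset M.toFinset := by
  simp only [stepB, Bool.and_eq_true, decide_eq_true_eq, joinedB_iff] at h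
  obtain ⟨⟨⟨⟨⟨⟨⟨⟨⟨⟨⟨h1, h2⟩, h3⟩, h4⟩, h5⟩, j1⟩, j2⟩, j3⟩, j4⟩, j5⟩, j6⟩, h6⟩ := h
  refine ⟨a, b, c, d, e, f, h1, h2, h3, h4, h5, j1, j2, j3, j4, j5, j6, ?_⟩
  split_ifs at h6 with hs
  · left
    obtain ⟨k1, k2⟩ := replB_spec h6
    refine ⟨by simpa using k1 (a, c) (by simp), by simpa using k1 (c, e) (by simp),
      by simpa using k1 (a, e) (by simp), ?_⟩
    rw [k2]; simp
  · right
    obtain ⟨k1, k2⟩ := replB_spec h6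
    refine ⟨by simpa using k1 (b, d) (by simp), by simpa using k1 (d, f) (by simp),
      by simpa using k1 (b, f) (by simp), ?_⟩
    rw [k2]; simp

/-- diagonals and sides -/
def sidesL (N : ℕ) (L : List (ℕ × ℕ)) : List (ℕ × ℕ) :=
  L ++ (1, N) :: (List.range' 1 (N - 1)).map fun a => (a, a + 1)

def crossB (e f : ℕ × ℕ) : Bool :=
  (decide (e.1 < f.1) && decide (f.1 < e.2) && decide (e.2 < f.2)) ||
    (decide (f.1 < e.1) && decide (e.1 < f.2) && decide (f.2 < e.2))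

theorem crossB_iff {e f : ℕ × ℕ} : crossB e f = true ↔ Cross e f := by
  simp [crossB, Cross, and_assoc]

def diagB (N : ℕ) (e : ℕ × ℕ) : Bool :=
  decide (1 ≤ e.1) && decide (e.1 + 2 ≤ e.2) && decide (e.2 ≤ N) && !(decide (e.1 = 1) && decide (e.2 = N))

theorem diagB_iff {N : ℕ} {e : ℕ × ℕ} : diagB N e = true ↔ IsDiag N e := by
  simp only [diagB, IsDiag, Bool.and_eq_true, decide_eq_true_eq, Bool.not_eq_true', Bool.and_eq_false_iff,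
    decide_eq_false_iff_not]
  tauto

/-- test for a colourful triangulation -/
def vertB (N : ℕ) (L : List (ℕ × ℕ)) : Bool :=
  L.all (fun e => diagB N e) && L.all (fun e => L.all fun f => !crossB e f) &&
  (List.range (N + 1)).all (fun a => (List.range (N + 1)).all fun b =>
    !diagB N (a, b) || L.any (fun f => crossB (a, b) f) || L.contains (a, b)) &&
  (sidesL N L).all (fun e => (sidesL N L).all fun f => !decide (e.2 = f.1) || !joinedB N L e.1 f.2 ||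
    (decide (e.1 % 3 ≠ e.2 % 3) && decide (e.2 % 3 ≠ f.2 % 3) && decide (e.1 % 3 ≠ f.2 % 3)))

theorem mem_sidesL {N : ℕ} {L : List (ℕ × ℕ)} {a b : ℕ} (h : Joined N L.toFinset a b) :
    (a, b) ∈ sidesL N L := by
  rcases h with h | ⟨h1, rfl, h3⟩ | ⟨rfl, rfl⟩
  · simp at h; simp [sidesL, h]
  · simp [sidesL]; right; right; omega
  · simp [sidesL]

theorem vertB_spec {N : ℕ} {L : List (ℕ × ℕ)} (h : vertB N L = true) :
    IsTriangulation N L.toFinset ∧ Colorful N L.toFinset := by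
  simp only [vertB, Bool.and_eq_true, List.all_eq_true, Bool.not_eq_true', ← Bool.not_eq_true,
    diagB_iff, crossB_iff, Bool.or_eq_true, List.any_eq_true, List.contains_iff_mem,
    decide_eq_true_eq, joinedB_iff, List.mem_range] at h
  obtain ⟨⟨⟨h1, h2⟩, h3⟩, h4⟩ := h
  refine ⟨⟨fun e he => h1 e (by simpa using he), fun e he f hf => h2 e (by simpa using he) f
    (by simpa using hf), ?_⟩, ?_⟩
  · rintro ⟨a, b⟩ hd hc
    have hb := hd.2.2.1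
    have ha := hd.2.1
    simp only at ha hb
    rcases h3 a (by omega) b (by omega) with (h | ⟨f, hf, hf'⟩) | h
    · exact absurd hd h
    · exact absurd hf' (hc f (by simpa using hf))
    · simpa using h
  · intro a b c hab hbc j1 j2 j3
    rcases h4 (a, b) (mem_sidesL j1) (b, c) (mem_sidesL j2) with (h | h) | h
    · exact absurd rfl h
    · exact absurd j3 h
    · exact ⟨h.1.1, h.1.2, h.2⟩

/-- all checks for one entry -/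
def entryB (G : List (List (ℕ × ℕ))) (i : ℕ) : Bool :=
  let c := certT.getD i (0, 0, 0, 0, 0, 0, 0, 0)
  vertB 14 (G.getD i []) && (decide (i = 0) || (decide (c.1 < G.length) &&
    decide (rankT.getD c.1 0 < rankT.getD i 0) &&
    stepB 14 (G.getD i []) (G.getD c.1 []) c.2.1 c.2.2.1 c.2.2.2.1 c.2.2.2.2.1 c.2.2.2.2.2.1
      c.2.2.2.2.2.2.1 c.2.2.2.2.2.2.2))

set_option maxRecDepth 100000 in
theorem allB : ((List.range (gen 14 1 14).length).all fun i => entryB (gen 14 1 14) i) = true := by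
  decide +kernel

end Run7.h842.TW
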